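import Pool.Agent.W662.SK.StmtsB

set_option autoImplicit false

open scoped InnerProductSpace ENNReal
open Filter Topology

namespace Pool.Agent.W828.SK

open Pool.Agent.W662.SK

theorem inv (h13 : S_B13) (h15 : S_B15) (hp : S_P) : S_INV := by
  intro Γ K _ _ _ _ π π' f hf hs hs' A B hA hB hθ hwc
  obtain ⟨θ⟩ := hθ
  haveI : Nontrivial K := by
    refine ⟨⟨f 0, 0, ?_⟩⟩
    intro h
    have h1 : ‖f 0‖ = 1 := hf.1 0
    rw [h, norm_zero] at h1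
    exact zero_ne_one h1
  obtain ⟨Φ, Ψ, hPD, hcl⟩ := h15 Γ K π π' f hf hs hs' A B hA hB θ
  obtain ⟨ω0, hω⟩ := h13 Γ K π π' hs A B hA hB θ
  refine hp Γ K π π' Φ Ψ hPD hwc hs' ω0 (fun g => (hω g).1) (fun g => ?_)
  obtain ⟨x, hx1, hx2⟩ := (hω g).2
  have h := hcl x ⟨cl (ω0 g), (hω g).1⟩ hx2
  rw [hx1] at h
  exact h

end Pool.Agent.W828.SK
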